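import Mathlib
import Pool.Agent.P.MP_dabb5b_ag.Sigma

set_option autoImplicit false

namespace Pool.Agent.Results.MP_dabb5b_ag.FibredNotGenerated

open MvPolynomial

section Defs

variable {k : Type} [Field k] {n : ℕ}

/-- `D` is locally nilpotent -/
def IsLND (D : Derivation k (MvPolynomial (Fin n) k) (MvPolynomial (Fin n) k)) : Prop :=
  ∀ h, ∃ m : ℕ, (⇑D)^[m] h = 0

/-- `τ` is the exponential of `D` -/
def IsExp (D : Derivation k (MvPolynomial (Fin n) k) (MvPolynomial (Fin n) k))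
    (τ : MvPolynomial (Fin n) k ≃ₐ[k] MvPolynomial (Fin n) k) : Prop :=
  ∀ h, τ h = ∑ᶠ m : ℕ, (m.factorial : k)⁻¹ • (⇑D)^[m] h

/-- `G` is generated by the exponentials of some set of locally nilpotent derivations -/
def DGen (G : Subgroup (MvPolynomial (Fin n) k ≃ₐ[k] MvPolynomial (Fin n) k)) : Prop :=
  ∃ 𝒢 : Set (Derivation k (MvPolynomial (Fin n) k) (MvPolynomial (Fin n) k)),
    (∀ D ∈ 𝒢, IsLND D) ∧ G = Subgroup.closure {τ | ∃ D ∈ 𝒢, IsExp D τ}

/-- the Jacobian determinant -/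
noncomputable def jac (τ : MvPolynomial (Fin n) k ≃ₐ[k] MvPolynomial (Fin n) k) :
    MvPolynomial (Fin n) k :=
  (Matrix.of fun i j => pderiv i (τ (X j))).det

/-- the subalgebra generated by all variables except the first two -/
noncomputable def base (k : Type) [Field k] (n : ℕ) : Subalgebra k (MvPolynomial (Fin n) k) :=
  Algebra.adjoin k (X '' {i : Fin n | 2 ≤ i.val})

end Defs

lemma locFin {k : Type} [Field k] {n : ℕ}
    {D : Derivation k (MvPolynomial (Fin n) k) (MvPolynomial (Fin n) k)} (hD : IsLND D)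
    {τ : MvPolynomial (Fin n) k ≃ₐ[k] MvPolynomial (Fin n) k} (hτ : IsExp D τ)
    (h : MvPolynomial (Fin n) k) :
    ∃ V : Submodule k (MvPolynomial (Fin n) k), V.FG ∧ h ∈ V ∧ ∀ v ∈ V, τ v ∈ V := by
  obtain ⟨N, hN⟩ := hD h
  refine ⟨Submodule.span k (Set.range fun i : ℕ => (⇑D)^[i] h), Submodule.fg_span ?_,
    Submodule.subset_span ⟨0, rfl⟩, fun v hv => ?_⟩
  · refine (((Set.finite_lt_nat N).image fun i : ℕ => (⇑D)^[i] h).insert 0).subset ?_
    rintro _ ⟨i, rfl⟩
    rcases lt_or_ge i N with hi | hi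
    · exact Or.inr ⟨i, hi, rfl⟩
    · obtain ⟨j, rfl⟩ := Nat.exists_eq_add_of_le' hi
      left
      simp only [Function.iterate_add_apply, hN]
      exact Function.iterate_fixed (map_zero D) j
  · have h1 : ∀ v ∈ Submodule.span k (Set.range fun i : ℕ => (⇑D)^[i] h),
        D v ∈ Submodule.span k (Set.range fun i : ℕ => (⇑D)^[i] h) := fun v hv => by
      induction hv using Submodule.span_induction with
      | mem x hx =>
        obtain ⟨i, rfl⟩ := hx
        exact Submodule.subset_span ⟨i + 1, Function.iterate_succ_apply' _ _ _⟩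
      | zero => simp
      | add x y _ _ hx hy => rw [map_add]; exact add_mem hx hy
      | smul a x _ hx => rw [D.map_smul]; exact Submodule.smul_mem _ a hx
    rw [hτ]
    refine finsum_induction _ (Submodule.zero_mem _) (fun _ _ => Submodule.add_mem _) fun m =>
      Submodule.smul_mem _ _ ?_
    induction m with
    | zero => exact hv
    | succ m ih => rw [Function.iterate_succ_apply']; exact h1 _ ih

open Pool.Agent.P.MP_dabb5b_ag in
theorem result (k : Type) [Field k] [CharZero k] (m : ℕ) :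
    ∃ σ : MvPolynomial (Fin (m + 3)) k ≃ₐ[k] MvPolynomial (Fin (m + 3)) k,
      jac σ = 1 ∧ σ (X 1) = X 2 ^ 3 * X 0 + X 1 + X 2 * X 1 ^ 2 ∧
      (∀ i : Fin (m + 3), 2 ≤ i.val → σ (X i) = X i) ∧
      ∀ G : Subgroup (MvPolynomial (Fin (m + 3)) k ≃ₐ[k] MvPolynomial (Fin (m + 3)) k), σ ∈ G →
        (∀ τ ∈ G, ∀ f ∈ base k (m + 3), τ f ∈ base k (m + 3)) → ¬ DGen G := by
  refine ⟨sigma k m, jac_sigma k m, sigma_1 k m, fun i => sigma_ge k m, ?_⟩
  rintro G hσ hG ⟨𝒢, h𝒢, rfl⟩
  obtain ⟨χ, h1, h2⟩ := exists_hom_int k m _ hG hσ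
  have key : ∀ τ (hτ : τ ∈ Subgroup.closure {τ | ∃ D ∈ 𝒢, IsExp D τ}), χ ⟨τ, hτ⟩ = 1 := by
    intro τ hτ
    induction hτ using Subgroup.closure_induction with
    | mem x hx =>
      obtain ⟨D, hD, hx⟩ := hx
      exact h2 _ (locFin (h𝒢 D hD) hx _)
    | one => exact map_one χ
    | mul x y hx hy ex ey => exact (map_mul χ ⟨x, hx⟩ ⟨y, hy⟩).trans (by rw [ex, ey, one_mul])
    | inv x hx ex => exact (map_inv χ ⟨x, hx⟩).trans (by rw [ex, inv_one])
  rw [key] at h1
  exact absurd (congrArg Multiplicative.toAdd h1) (by simp)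

end Pool.Agent.Results.MP_dabb5b_ag.FibredNotGenerated
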