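import Mathlib
import Pool.Agent.P.MP_dabb5b_ag.N.Main

set_option autoImplicit false

namespace Pool.Agent.Results.MP_dabb5b_ag.NotGenerated

open MvPolynomial

section Defs

variable {k : Type} [Field k] {n : ℕ}

/-- `D` is locally nilpotent -/
def IsLND (D : Derivation k (MvPolynomial (Fin n) k) (MvPolynomial (Fin n) k)) : Prop :=
  ∀ h, ∃ m : ℕ, (⇑D)^[m] h = 0

/-- `τ` is the exponential of `D` -/
def IsExp (D : Derivation k (MvPolynomial (Fin n) k) (MvPolynomial (Fin n) k))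
    (τ : MvPolynomial (Fin n) k ≃ₐ[k] MvPolynomial (Fin n) k) : Prop :=
  ∀ h, τ h = ∑ᶠ m : ℕ, (m.factorial : k)⁻¹ • (⇑D)^[m] h

/-- the Jacobian determinant -/
noncomputable def jac (τ : MvPolynomial (Fin n) k ≃ₐ[k] MvPolynomial (Fin n) k) :
    MvPolynomial (Fin n) k :=
  (Matrix.of fun i j => pderiv i (τ (X j))).det

end Defs

open Pool.Agent.P.MP_dabb5b_ag.N in
theorem result (k : Type) [Field k] [CharZero k] (n : ℕ) (hn : 3 ≤ n) :
    ∃ σ : MvPolynomial (Fin n) k ≃ₐ[k] MvPolynomial (Fin n) k,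
      jac σ = 1 ∧ σ ∉ Subgroup.closure {τ | ∃ D, IsLND D ∧ IsExp D τ} := by
  obtain ⟨m, rfl⟩ : ∃ m, n = m + 3 := ⟨n - 3, by omega⟩
  obtain ⟨χ, σ, h1, h2⟩ := exists_chi_n k m
  refine ⟨σ, h1, fun h => ?_⟩
  have h3 : Subgroup.closure {τ | ∃ D, IsLND D ∧ IsExp D τ} ≤ χ.ker :=
    (Subgroup.closure_le _).2 fun τ ⟨D, hD, hτ⟩ =>
      eq_one_of_roots χ fun _ hn => exp_root D hD τ hτ hn
  have h4 := h3 h
  rw [MonoidHom.mem_ker, h2] at h4
  exact absurd (congrArg Multiplicative.toAdd h4) (by simp)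

end Pool.Agent.Results.MP_dabb5b_ag.NotGenerated
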